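import Pool.Agent.H78.KP.Stmts
import Pool.Agent.H33.KG.BAS
import Pool.Agent.H85.KG.PWB
import Pool.Agent.H91.Sym.A2

/-!
# Project KP, module STC: the basic inequality for one short step
-/

set_option autoImplicit false
set_option linter.unusedSectionVars false

open MeasureTheory Set Filter Topology
open scoped ContDiff

namespace Pool.Agent.H78.KP

open Pool.Agent.H84 Pool.Agent.H84.Sym Pool.Agent.H84.Sym.P2x Pool.Agent.H19.KL
open Pool.Agent.H84.Sym.C29 Pool.Agent.H73.KG Pool.Agent.H20.KH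

section

variable {E : Type} [NormedAddCommGroup E] [InnerProductSpace ℝ E]
    [FiniteDimensional ℝ E] [MeasurableSpace E] [BorelSpace E]

/-- second derivative of the potential of the posterior measure -/
theorem STC_hess {U : E → ℝ} {t C : ℝ} (hU : Pot U t C) {s : ℝ} (hs : 0 ≤ s) (θ x v : E) :
    fderiv ℝ (fderiv ℝ (pw U s θ)) x v v = fderiv ℝ (fderiv ℝ U) x v v + s * ‖v‖ ^ 2 := by
  obtain ⟨h1, h2⟩ := pot_add_quad hU hs (0:E)
  have h3 := (pot_add_aff h1 (-θ) (Real.log (ZF U s θ (fun _ => 1)))).2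
  have e : (fun x => pt U s 0 x + (inner ℝ (-θ) x + Real.log (ZF U s θ (fun _ => 1)))) =
      pw U s θ := by
    ext x
    unfold pw tp pt
    rw [sub_zero, inner_neg_left]
    ring
  rw [e] at h3
  rw [h3, h2]

theorem STC_one {u : E → ℝ} (hu : Tst u) : ContDiff ℝ 1 u :=
  hu.1.of_le (by exact_mod_cast (le_top : (1 : ℕ∞) ≤ ⊤))

theorem STC_DD {u : E → ℝ} (hu : Tst u) (e f : E) : BC (fun x => D e u x * D f u x) :=
  (D_BC (STC_one hu) hu.2 e).mul (D_BC (STC_one hu) hu.2 f)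

/-- the Dirichlet form as a sum -/
theorem STC_WD {ι : Type} [Fintype ι] (b : OrthonormalBasis ι ℝ E) (M : Matrix ι ι ℝ)
    (V u : E → ℝ) [IsFiniteMeasure (mu V)] (hu : Tst u) :
    WD b M V u = ∑ i, ∑ j, M i j * ∫ x, D (b i) u x * D (b j) u x ∂(mu V) := by
  unfold WD
  have h : ∀ i j, Integrable (fun x => M i j * (D (b i) u x * D (b j) u x)) (mu V) := fun i j =>
    ((STC_DD hu (b i) (b j)).integrable (mu V)).const_mul _
  rw [integral_finsetSum _ fun i _ => integrable_finsetSum _ fun j _ => h i j]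
  refine Finset.sum_congr rfl fun i _ => ?_
  rw [integral_finsetSum _ fun j _ => h i j]
  refine Finset.sum_congr rfl fun j _ => ?_
  rw [integral_const_mul]

theorem STC_Y1 {ι : Type} [Fintype ι] (b : OrthonormalBasis ι ℝ E)
    (V u : E → ℝ) [IsFiniteMeasure (mu V)] (hu : Tst u) :
    Y1 V u = ∑ i, ∫ x, (D (b i) u x) ^ 2 ∂(mu V) := by
  unfold Y1
  simp only [norm_fderiv_sq b]
  rw [integral_finsetSum]
  intro i _
  exact ((D_BC (STC_one hu) hu.2 (b i)).sq).integrable (mu V)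

theorem STC_sq {u : E → ℝ} (hu : Tst u) (e : E) : GC (fun x => (D e u x) ^ 2) :=
  GC.of_BC (D_BC (STC_one hu) hu.2 e).sq

/-- sums of regular functions -/
theorem STC_rgsum (hR : RGCStmt E) {κ : Type} (S : Finset κ) (F : κ → ℝ → E → ℝ)
    (hF : ∀ i, RG (F i)) : RG (fun r θ => ∑ i ∈ S, F i r θ) := by
  classical
  induction S using Finset.induction_on with
  | empty => simpa using hR.1 0
  | insert a S ha ih =>
    simp only [Finset.sum_insert ha]
    exact hR.2.1 _ _ (hF a) ih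

theorem STC_ex {U : E → ℝ} {t s : ℝ} (hB : BAYStmt E) (hU : PP U t) (hs : 0 ≤ s) {κ : Type}
    (S : Finset κ) (c : κ → ℝ) (F : κ → E → ℝ) (hF : ∀ i, GC (F i)) :
    GC (fun θ => ∑ i ∈ S, c i * F i θ) ∧
    EX U s (fun θ => ∑ i ∈ S, c i * F i θ) = ∑ i ∈ S, c i * EX U s (F i) := by
  classical
  obtain ⟨-, h2, h3, h4, -, -, -⟩ := hB U t hU s hs
  induction S using Finset.induction_on with
  | empty =>
    simp only [Finset.sum_empty]
    exact ⟨GC.const 0, h4 0⟩
  | insert a S ha ih =>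
    simp only [Finset.sum_insert ha]
    have e1 : GC (fun θ => c a * F a θ) := (GC.const (c a)).mul (hF a)
    refine ⟨e1.add ih.1, ?_⟩
    rw [h2 _ _ e1 ih.1, ih.2, h3]

end

theorem stc_thm (E : Type) [NormedAddCommGroup E] [InnerProductSpace ℝ E]
    [FiniteDimensional ℝ E] [MeasurableSpace E] [BorelSpace E] (hAFF : AFFStmt E)
    (hEVJ : EVJStmt E) (hEVV : EVVStmt E) (hEV3 : EV3Stmt E) (hBET : BETStmt E)
    (hPWB : PWBStmt E) (hBAS : BASStmt E) (hBAY : BAYStmt E) (hRGC : RGCStmt E)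
    (hCVR : CVRStmt E) (hRGP : RGPStmt E) : STCStmt E := by
  intro t0 ht0 ht01
  obtain ⟨C1, hC1, hB⟩ := hBET t0 ht0 ht01
  set N : ℝ := (Module.finrank ℝ E : ℝ) with hN
  refine ⟨max C1 (5 * N ^ 2 / t0 ^ 2), hC1.trans (le_max_left _ _), ?_⟩
  intro κ hκ hTK t s η g ht ht1 hs hs1 hη hg hGB ι _ _ b ρ U hW u lam hu hlam
  set C : ℝ := max C1 (5 * N ^ 2 / t0 ^ 2) with hC
  have ht' : 0 < t := ht0.trans_le ht
  have hUP := hW.pp
  obtain ⟨⟨CU, hU⟩, hprob⟩ := id hW.pp
  have hcard : (Fintype.card ι : ℝ) = N := by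
    rw [hN, Module.finrank_eq_card_basis b.toBasis]
  have hcov : CovLe U 1 := by
    refine hBAS.2.2.2.2.2.2 U t hUP ι b 1 ?_
    have e : (1:ℝ) • (1 : Matrix ι ι ℝ) - cm b U = Matrix.diagonal ρ := by
      rw [hW.cov, one_smul, ← Matrix.diagonal_one, Matrix.diagonal_sub]
      congr 1
      ext i
      ring
    rw [e]
    exact Matrix.PosSemidef.diagonal fun i => (hW.pos i).le
  have hGu : GC u := GC.of_BC (tst_BC hu)
  have hcv0 : 0 ≤ cv U u u := (hBAS.2.2.2.1 U t hUP u u hGu hGu).2.1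
  have hY0 : 0 ≤ Y1 U u := integral_nonneg fun x => by positivity
  have hZ0 : 0 ≤ Z1 b U u := integral_nonneg fun x => by unfold hq; positivity
  set β1 : ℝ := 1 / t * (lam * κ * ((1 + C1 * Real.sqrt s) * Y1 U u + C1 * Real.sqrt s *
    Z1 b U u) + 1 / lam * Z1 b U u) with hβ1
  have hJ := hEVJ U t hUP ι b u s β1 hu hs fun r hr =>
    hB κ hκ hTK U t ht ht1 hUP hcov ι b u lam s hu hlam hs hs1 r hr
  set β2 : ℝ := (1 + 5 * N ^ 2 / t ^ 2 * s) * cv U u u with hβ2
  have hV := hEVV U t hUP ι b u s β2 hu hs fun r hr => by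
    refine (hEV3 U t hUP hcov ι b u hu r hr.1).trans ?_
    rw [hβ2, hcard]
    have : r ≤ s := hr.2.le
    gcongr
  -- regular functions
  have hcm : ∀ i j, RG (fun r θ => cm b (pw U r θ) i j) := fun i j =>
    hCVR U t hUP (li (b i)) (li (b j)) (BAS_li _) (BAS_li _)
  have hGD : ∀ i j, GC (fun x => D (b i) u x * D (b j) u x) := fun i j =>
    GC.of_BC (STC_DD hu (b i) (b j))
  have hfin : ∀ r θ, 0 ≤ r → IsFiniteMeasure (mu (pw U r θ)) := fun r θ hr => by
    have := ((hPWB U t hUP).1 r θ hr).2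
    infer_instance
  have hWD : RG (fun r θ => WD b (cm b (pw U r θ)) (pw U r θ) u) := by
    have e1 : RG (fun r θ => ∑ i, ∑ j, cm b (pw U r θ) i j *
        pm U r θ (fun x => D (b i) u x * D (b j) u x)) :=
      STC_rgsum hRGC _ _ fun i => STC_rgsum hRGC _ _ fun j =>
        hRGC.2.2.1 _ _ (hcm i j) (hRGP U t hUP _ (hGD i j)).1
    refine hRGC.2.2.2.2.2.2 _ _ e1 fun r θ hr => ?_
    have := hfin r θ hr
    rw [STC_WD b _ (pw U r θ) u hu]
    refine Finset.sum_congr rfl fun i _ => Finset.sum_congr rfl fun j _ => ?_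
    rw [(hPWB U t hUP).2.1 r θ hr]
  have hR6 := hRGC.2.2.2.2.2.1
  have g1 : GC (fun θ => cv (pw U s θ) u u) := (hR6 _ (hCVR U t hUP u u hGu hGu) s hs).1
  have g2 : GC (fun θ => WD b (cm b (pw U s θ)) (pw U s θ) u) := (hR6 _ hWD s hs).1
  have g3 : ∀ i, GC (fun θ => pm U s θ (fun x => (D (b i) u x) ^ 2)) := fun i =>
    (hR6 _ (hRGP U t hUP _ (STC_sq hu (b i))).1 s hs).1
  set c : ι → ℝ := fun i => ρ i + s * η ^ 2 / (4 * t) with hc
  -- the inequality for the posterior measures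
  have hpt : ∀ θ, cv (pw U s θ) u u ≤ g * (WD b (cm b (pw U s θ)) (pw U s θ) u +
      ∑ i, c i * pm U s θ (fun x => (D (b i) u x) ^ 2)) := by
    intro θ
    have hP := (hPWB U t hUP).1 s θ hs.le
    have hβ : ∀ i, 0 < t / ρ i + s := fun i => by
      have := hW.pos i
      positivity
    have h1 := hAFF (t + η * s) g (by positivity) hg.le hGB (pw U s θ) (t + s) hP ι b
      (fun i => t / ρ i + s) hβ (by
        intro x v
        rw [STC_hess hU hs.le]
        have e1 := hW.hess x v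
        have e2 : ‖v‖ ^ 2 = ∑ i, (inner ℝ (b i) v) ^ 2 := by
          rw [← b.sum_sq_norm_inner_right v]
          refine Finset.sum_congr rfl fun i _ => ?_
          rw [Real.norm_eq_abs, sq_abs]
        rw [e2]
        refine le_trans (le_of_eq ?_) (add_le_add_left e1 _)
        rw [Finset.mul_sum, Finset.mul_sum, ← Finset.sum_add_distrib]
        refine Finset.sum_congr rfl fun i _ => ?_
        ring) u (STC_one hu) hu.2
    refine h1.trans ?_
    refine mul_le_mul_of_nonneg_left ?_ hg.le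
    refine add_le_add le_rfl (Finset.sum_le_sum fun i _ => ?_)
    rw [(hPWB U t hUP).2.1 s θ hs.le]
    have hpm : 0 ≤ pm U s θ (fun x => (D (b i) u x) ^ 2) := by
      rw [← (hPWB U t hUP).2.1 s θ hs.le]
      exact integral_nonneg fun x => by positivity
    refine mul_le_mul_of_nonneg_right ?_ hpm
    have hρ := hW.pos i
    rw [div_le_iff₀ (hβ i), hc]
    simp only
    have e3 : (ρ i + s * η ^ 2 / (4 * t)) * (t / ρ i + s) =
        t + s * η ^ 2 / (4 * ρ i) + s * ρ i + s ^ 2 * η ^ 2 / (4 * t) := by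
      field_simp
      ring
    rw [e3]
    have e4 : η * s ≤ s * η ^ 2 / (4 * ρ i) + s * ρ i := by
      have : s * η ^ 2 / (4 * ρ i) + s * ρ i - η * s = s * (η - 2 * ρ i) ^ 2 / (4 * ρ i) := by
        field_simp
        ring
      have h5 : 0 ≤ s * (η - 2 * ρ i) ^ 2 / (4 * ρ i) := by positivity
      linarith
    have e5 : 0 ≤ s ^ 2 * η ^ 2 / (4 * t) := by positivity
    linarith
  -- expectation
  obtain ⟨-, b2, b3, -, b5, -, b7⟩ := hBAY U t hUP s hs.le
  obtain ⟨s1, s2⟩ := STC_ex hBAY hUP hs.le Finset.univ c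
    (fun i θ => pm U s θ (fun x => (D (b i) u x) ^ 2)) g3
  have hE := b5 _ _ g1 ((GC.const g).mul (g2.add s1)) hpt
  rw [b3, b2 _ _ g2 s1, s2] at hE
  have e6 : ∀ i, EX U s (fun θ => pm U s θ (fun x => (D (b i) u x) ^ 2)) =
      ∫ x, (D (b i) u x) ^ 2 ∂(mu U) := fun i => b7 _ (STC_sq hu (b i))
  simp only [e6] at hE
  have e7 : WD b (cm b U) U u = ∑ i, (1 - ρ i) * ∫ x, (D (b i) u x) ^ 2 ∂(mu U) := by
    rw [STC_WD b _ U u hu, hW.cov]
    refine Finset.sum_congr rfl fun i _ => ?_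
    rw [Finset.sum_eq_single i]
    · rw [Matrix.diagonal_apply_eq]
      congr 1
      refine integral_congr_ae (Eventually.of_forall fun x => ?_)
      simp only
      ring
    · intro j _ hj
      rw [Matrix.diagonal_apply_ne _ hj.symm, zero_mul]
    · intro h
      exact absurd (Finset.mem_univ _) h
  have e8 : WD b (cm b U) U u + ∑ i, c i * ∫ x, (D (b i) u x) ^ 2 ∂(mu U) =
      Y1 U u * (1 + s * η ^ 2 / (4 * t)) := by
    rw [e7, STC_Y1 b U u hu, ← Finset.sum_add_distrib, Finset.sum_mul]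
    refine Finset.sum_congr rfl fun i _ => ?_
    rw [hc]
    ring
  have e9 : cv U u u ≤ g * (WD b (cm b U) U u + s * β1 +
      ∑ i, c i * ∫ x, (D (b i) u x) ^ 2 ∂(mu U)) + s * β2 := by
    refine hV.trans ?_
    refine add_le_add (hE.trans ?_) le_rfl
    refine mul_le_mul_of_nonneg_left ?_ hg.le
    exact add_le_add hJ le_rfl
  have e10 : g * (WD b (cm b U) U u + s * β1 +
      ∑ i, c i * ∫ x, (D (b i) u x) ^ 2 ∂(mu U)) = g * (Y1 U u * (1 + s * η ^ 2 / (4 * t)) +
        s * β1) := by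
    rw [← e8]
    ring
  rw [e10] at e9
  refine e9.trans ?_
  have hCC : C1 ≤ C := le_max_left _ _
  have hCN : 5 * N ^ 2 / t ^ 2 ≤ C := by
    refine le_trans ?_ (le_max_right _ _)
    gcongr
  have hs0 : 0 ≤ Real.sqrt s := Real.sqrt_nonneg _
  have hb1 : s * β1 ≤ s / t * (lam * κ * ((1 + C * Real.sqrt s) * Y1 U u + C * Real.sqrt s *
      Z1 b U u) + 1 / lam * Z1 b U u) := by
    rw [hβ1]
    have : s * (1 / t * (lam * κ * ((1 + C1 * Real.sqrt s) * Y1 U u + C1 * Real.sqrt s *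
        Z1 b U u) + 1 / lam * Z1 b U u)) = s / t * (lam * κ * ((1 + C1 * Real.sqrt s) * Y1 U u +
          C1 * Real.sqrt s * Z1 b U u) + 1 / lam * Z1 b U u) := by ring
    rw [this]
    gcongr
  have hb2 : s * β2 ≤ s * (1 + C * s) * cv U u u := by
    rw [hβ2, mul_assoc]
    gcongr
  refine add_le_add ?_ hb2
  refine mul_le_mul_of_nonneg_left ?_ hg.le
  exact add_le_add le_rfl hb1

end Pool.Agent.H78.KP
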