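import Pool.Agent.H78.KP.Stmts
import Pool.Agent.H15.KG.BOD

/-!
# Project KP, module BD5: Lipschitz functions on bodies
-/

set_option autoImplicit false
set_option linter.unusedSectionVars false

open MeasureTheory Set Filter Topology
open scoped ContDiff

namespace Pool.Agent.H78.KP

open Pool.Agent.H84 Pool.Agent.H84.Sym Pool.Agent.H84.Sym.P2x Pool.Agent.H19.KL
open Pool.Agent.H73.KG

theorem bd5_thm (hSL5 : SL5Stmt)
    (hLEX : ∀ (E : Type) [NormedAddCommGroup E] [InnerProductSpace ℝ E] [FiniteDimensional ℝ E]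
      [MeasurableSpace E] [BorelSpace E], LEXStmt E) : BD5Stmt := by
  obtain ⟨C, hC, H⟩ := hSL5
  refine ⟨C, hC, ?_⟩
  intro E _ _ _ _ _ K R s hK hs h2
  have h1 : (1:ℝ) < L1 (Module.finrank ℝ E) := by
    unfold L1
    rw [Real.lt_log_iff_exp_lt (by positivity)]
    have h := Real.exp_one_lt_d9
    have : (0:ℝ) ≤ (Module.finrank ℝ E : ℝ) := Nat.cast_nonneg _
    linarith
  have h3 : 0 < L2 (Module.finrank ℝ E) := Real.log_pos h1
  set X := L2 (Module.finrank ℝ E) with hX
  have core := B15_core (hLEX E) (W := C * X ^ 5) hK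
    (fun U t a M hU ha hc hM f hf hfM => by
      have := H E U t a M hU ha hc hM f hf hfM
      refine this.trans (le_of_eq ?_)
      ring) hs (by positivity) h2
  intro g hg M hM0 hM
  obtain ⟨c, hc⟩ := core g hg M hM0 hM
  refine ⟨c, hc.trans ?_⟩
  have h4 : Real.sqrt (C * X ^ 5) ≤ C * X ^ ((5:ℝ) / 2) := by
    rw [Real.sqrt_mul (by linarith)]
    have h5 : Real.sqrt (X ^ 5) = X ^ ((5:ℝ) / 2) := by
      rw [Real.sqrt_eq_rpow, ← Real.rpow_natCast, ← Real.rpow_mul h3.le]
      norm_num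
    rw [h5]
    refine mul_le_mul_of_nonneg_right ?_ (by positivity)
    rw [Real.sqrt_le_left (by linarith)]
    nlinarith
  have h6 : s * Real.sqrt (C * X ^ 5) ≤ C * s * X ^ ((5:ℝ) / 2) := by
    calc s * Real.sqrt (C * X ^ 5) ≤ s * (C * X ^ ((5:ℝ) / 2)) :=
          mul_le_mul_of_nonneg_left h4 hs.le
      _ = _ := by ring
  exact mul_le_mul_of_nonneg_right (mul_le_mul_of_nonneg_right h6 hM0) measureReal_nonneg

end Pool.Agent.H78.KP
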