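import Pool.Agent.H78.KP.Stmts
import Pool.Agent.H33.KG.BAS

/-!
# Project KP, module NSB: the trivial bound for the pairing
-/

set_option autoImplicit false
set_option linter.unusedSectionVars false

open MeasureTheory Set Filter Topology
open scoped ContDiff

namespace Pool.Agent.H78.KP

open Pool.Agent.H84 Pool.Agent.H84.Sym Pool.Agent.H84.Sym.P2x Pool.Agent.H19.KL
open Pool.Agent.H84.Sym.C29 Pool.Agent.H73.KG Pool.Agent.H20.KH

theorem NSB_entry {ι : Type} [Fintype ι] [DecidableEq ι] {O : Matrix ι ι ℝ} (hO : CT O)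
    (k m : ι) : |O k m| ≤ 1 := by
  have h := hO (Pi.single k 1) (Pi.single m 1)
  have e1 : ∑ a, ∑ l, O a l * ((Pi.single k 1 : ι → ℝ) a * (Pi.single m 1 : ι → ℝ) l) = O k m := by
    rw [Finset.sum_eq_single k, Finset.sum_eq_single m]
    · simp
    · intro l _ hl
      simp [hl]
    · intro hn; exact absurd (Finset.mem_univ _) hn
    · intro a _ ha
      simp [ha]
    · intro hn; exact absurd (Finset.mem_univ _) hn
  have e2 : ∀ k : ι, ∑ a, ((Pi.single k 1 : ι → ℝ) a) ^ 2 = 1 := by
    intro k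
    rw [Finset.sum_eq_single k]
    · simp
    · intro l _ hl
      simp [hl]
    · intro hn; exact absurd (Finset.mem_univ _) hn
  rw [e1, e2, e2, mul_one] at h
  rw [← sq_abs] at h
  nlinarith [abs_nonneg (O k m)]

theorem nsb_thm (E : Type) [NormedAddCommGroup E] [InnerProductSpace ℝ E]
    [FiniteDimensional ℝ E] [MeasurableSpace E] [BorelSpace E] (hBAS : BASStmt E) :
    NSBStmt E := by
  classical
  intro ι _ b F Ψ hF t ht
  choose hFc A hA using fun m => tst_BC (hF.tst m)
  set S : ℝ := ∑ m, |A m| with hS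
  have hS0 : 0 ≤ S := Finset.sum_nonneg fun m _ => abs_nonneg _
  refine ⟨Fintype.card ι * (Real.sqrt (1 / t) * S), by positivity, ?_⟩
  intro U hU O hO
  have hprob := hU.2
  rw [zero_mul, zero_add]
  have key : ∀ k, cv U (li (b k)) (fun x => ∑ m, O k m * F m x) ≤ Real.sqrt (1 / t) * S := by
    intro k
    have hB : BC (fun x => ∑ m, O k m * F m x) :=
      BC.sum fun m => (BC.const (O k m)).mul (tst_BC (hF.tst m))
    have hG : GC (fun x => ∑ m, O k m * F m x) := GC.of_BC hB
    have hbd : ∀ x, |∑ m, O k m * F m x| ≤ S := by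
      intro x
      refine (Finset.abs_sum_le_sum_abs _ _).trans (Finset.sum_le_sum fun m _ => ?_)
      rw [abs_mul]
      calc |O k m| * |F m x| ≤ 1 * |A m| :=
            mul_le_mul (NSB_entry hO k m) ((hA m x).trans (le_abs_self _)) (abs_nonneg _)
              zero_le_one
        _ = |A m| := one_mul _
    obtain ⟨h1, -, -, -⟩ := hBAS.2.2.2.1 U t hU (li (b k)) _ (BAS_li _) hG
    have h2 := hBAS.2.2.2.2.1 U t hU (b k)
    rw [b.orthonormal.1 k, one_pow, mul_one] at h2
    have h3 : cv U (fun x => ∑ m, O k m * F m x) (fun x => ∑ m, O k m * F m x) ≤ S ^ 2 := by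
      unfold Pool.Agent.H73.KG.cv
      have h4 : ∫ x, (∑ m, O k m * F m x) * (∑ m, O k m * F m x) ∂(mu U) ≤ ∫ _x, S ^ 2 ∂(mu U) := by
        refine integral_mono ((hB.mul hB).integrable (mu U)) (integrable_const _) fun x => ?_
        simp only
        have := hbd x
        rw [← pow_two, ← sq_abs]
        exact pow_le_pow_left₀ (abs_nonneg _) this 2
      rw [integral_const, probReal_univ, one_smul] at h4
      have h5 : 0 ≤ (∫ x, (∑ m, O k m * F m x) ∂(mu U)) * ∫ x, (∑ m, O k m * F m x) ∂(mu U) :=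
        mul_self_nonneg _
      linarith
    have h6 : cv U (li (b k)) (fun x => ∑ m, O k m * F m x) ^ 2 ≤ (Real.sqrt (1 / t) * S) ^ 2 := by
      rw [mul_pow, Real.sq_sqrt (by positivity)]
      refine h1.trans ?_
      have h7 := (hBAS.2.2.2.1 U t hU _ _ hG hG).2.1
      exact mul_le_mul h2 h3 h7 (by positivity)
    exact abs_le_of_sq_le_sq' h6 (by positivity) |>.2
  calc ∑ k, cv U (li (b k)) (fun x => ∑ m, O k m * F m x) ≤ ∑ _k : ι, Real.sqrt (1 / t) * S :=
        Finset.sum_le_sum fun k _ => key k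
    _ = Fintype.card ι * (Real.sqrt (1 / t) * S) := by
        rw [Finset.sum_const, Finset.card_univ, nsmul_eq_mul]

end Pool.Agent.H78.KP
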