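import Pool.Agent.H78.KP.Stmts
import Pool.Agent.H44.KG.SCL

/-!
# Project KP, module SL5: scaling
-/

set_option autoImplicit false

namespace Pool.Agent.H78.KP

open Pool.Agent.H73.KG

theorem sl5_thm (h : TC5Stmt) : SL5Stmt := by
  obtain ⟨C, hC, h⟩ := h
  refine ⟨C, hC, ?_⟩
  intro E _ _ _ _ _ U t a M hU ha hc hM f hf hf'
  refine (SCL_one (fun U t => h E U t) U t a M hU ha hc hM f hf hf').trans (le_of_eq ?_)
  ring

end Pool.Agent.H78.KP
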